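import Pool.Agent.Helper86.PE.C2

set_option autoImplicit false

/-!
# Every scale: prime tuples along integer polynomials
-/

open Finset Filter Topology Polynomial

namespace Pool.Agent.Helper86.PE

open Pool.Agent.H807R2.Dav hiding KK
open Pool.Agent.Helper86.PS
open Pool.Agent.Helper86.XS
open Pool.Agent.Helper86.DZ
open Pool.Agent.Helper86.UA
open Pool.Agent.Helper86.EA
open Pool.Agent.Helper85.HP

lemma abs_eps {x m ε ε0 : ℝ} (h0 : 0 < ε0) (h : ε0 ≤ ε) (hx : |x| ≤ ε0 * m) : |x| ≤ ε * m := by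
  refine hx.trans ?_
  have h2 : 0 ≤ ε0 * m := (abs_nonneg _).trans hx
  have h3 : 0 ≤ m := nonneg_of_mul_nonneg_right h2 h0
  exact mul_le_mul_of_nonneg_right h h3

/-- the choice of the bound for the coefficients -/
lemma exists_A {K : ℕ} (hK : 0 < K) {δ : ℝ} (hδK : δ * K ≤ 1 / 2) {N : ℕ} (hN1 : 1 ≤ N) (hN : (3 ^ K) ^ 2 ≤ N) (hδ : 0 ≤ δ) :
    ∃ A : ℕ, 1 ≤ A ∧ (N : ℝ) ^ δ ≤ A ∧ (A + 1) ^ K ≤ N := by
  have hN1r : (1 : ℝ) ≤ N := by exact_mod_cast hN1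
  have hN0 : (0 : ℝ) < N := by linarith
  obtain ⟨A, hA⟩ : ∃ A : ℕ, A = ⌈(N : ℝ) ^ δ⌉₊ := ⟨_, rfl⟩
  have hA1 : 1 ≤ A := by
    rw [hA]
    exact Nat.ceil_pos.2 (Real.rpow_pos_of_pos hN0 _)
  have hAle : (N : ℝ) ^ δ ≤ A := by rw [hA]; exact Nat.le_ceil _
  refine ⟨A, hA1, hAle, ?_⟩
  have hδ1 : 1 ≤ (N : ℝ) ^ δ := Real.one_le_rpow hN1r hδ
  have f1 : (A : ℝ) < (N : ℝ) ^ δ + 1 := by rw [hA]; exact Nat.ceil_lt_add_one (Real.rpow_nonneg hN0.le _)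
  have f2 : (A : ℝ) + 1 ≤ 3 * (N : ℝ) ^ δ := by linarith
  have f3 : ((A : ℝ) + 1) ^ K ≤ (3 * (N : ℝ) ^ δ) ^ K := pow_le_pow_left₀ (by positivity) f2 K
  have f4 : ((N : ℝ) ^ δ) ^ K ≤ √(N : ℝ) := by
    rw [← Real.rpow_natCast, ← Real.rpow_mul hN0.le, Real.sqrt_eq_rpow]
    exact Real.rpow_le_rpow_of_exponent_le hN1r hδK
  have f5 : (3 : ℝ) ^ K ≤ √(N : ℝ) := by
    apply Real.le_sqrt_of_sq_le
    exact_mod_cast hN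
  have f6 : ((A : ℝ) + 1) ^ K ≤ N := by
    calc ((A : ℝ) + 1) ^ K ≤ (3 * (N : ℝ) ^ δ) ^ K := f3
      _ = 3 ^ K * ((N : ℝ) ^ δ) ^ K := mul_pow _ _ _
      _ ≤ √(N : ℝ) * √(N : ℝ) := mul_le_mul f5 f4 (by positivity) (Real.sqrt_nonneg _)
      _ = N := Real.mul_self_sqrt hN0.le
  exact_mod_cast f6

/-- **prime tuples along integer polynomials at every scale**, the exceptional zero in the main term -/
theorem everyP (s : ℕ) (hs : 1 ≤ s) (K : ℕ) {ε : ℝ} (hε : 0 < ε) :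
    ∃ D : ℕ, 0 < D ∧ ∃ δ : ℝ, 0 < δ ∧ ∃ c : ℝ, 0 < c ∧ ∀ B : ℕ, ∀ κ : ℝ, 0 < κ → ∃ N0 : ℕ, ∀ N : ℕ, N0 ≤ N →
    ∃ j1 : PC, Real.log N ^ B ≤ ((j1.1 + 1 : ℕ) : ℝ) ∧ j1.2 ^ 2 = 1 ∧ ∃ y : ℝ, 0 ≤ y ∧ y ≤ 1 - (N : ℝ) ^ (-κ) ∧
      (y = 0 ∨ (j1.2.IsPrimitive ∧ j1.2 ≠ 1 ∧ ∃ β : ℝ, y = (N : ℝ) ^ (β - 1) ∧ j1.2.LFunction β = 0)) ∧
    ∀ a : Fin s → ℤ, (∀ i, a i ≠ 0 ∧ ((|a i| : ℤ) : ℝ) ≤ (N : ℝ) ^ δ) →
    ∀ (P : Fin s → ℕ) (F : Fin s → ℤ[X]), (∀ i, 1 ≤ (F i).natDegree ∧ (F i).natDegree ≤ K) →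
    (∀ i, (N : ℝ) ^ (1 - δ) ≤ (P i : ℝ) ^ (F i).natDegree) →
    (∀ i, ∀ x : ℤ, 0 ≤ x → x < P i → ((|(F i).eval x| : ℤ) : ℝ) ≤ (N : ℝ) ^ (1 + δ)) →
    ∃ E : Finset (Fin s → ℤ), (E.card : ℝ) ≤ (N : ℝ) ^ (-δ) * ∏ i, (P i : ℝ) ∧
    ∀ x : Fin s → ℤ, (∀ i, 0 ≤ x i ∧ x i < P i) → x ∉ E →
    ∀ h : Fin s → ℤ, (∀ i, ((|h i - (F i).eval (x i)| : ℤ) : ℝ) ≤ (N : ℝ) ^ δ) → (∀ p : ℕ, p.Prime → nuP a h p < p) →
    (1 - y) ^ s ≤ twA j1 y a h ∧ twA j1 y a h ≤ 2 ^ s ∧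
    ∃ S : ℝ, HasProd (fun p : Nat.Primes => facP a h (p : ℕ)) S ∧ c ≤ S ∧ ∀ u v : ℤ, -(N : ℤ) ≤ u → v ≤ N →
      (N : ℝ) ^ (1 - δ) ≤ ((v - u : ℤ) : ℝ) → (∀ n ∈ Ico u v, ∀ i, 1 ≤ a i * n + h i) →
      |(pc a h u v : ℝ) - twA j1 y a h * S * (((v - u : ℤ) : ℝ) / Real.log N ^ s)| ≤
        ε * (twA j1 y a h * S * (((v - u : ℤ) : ℝ) / Real.log N ^ s)) ∧
      (¬ ((j1.1 + 1 : ℕ) : ℤ) ∣ (D : ℤ) * (Del a h * ∏ i, a i) →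
        |(pc a h u v : ℝ) - S * (((v - u : ℤ) : ℝ) / Real.log N ^ s)| ≤ ε * (S * (((v - u : ℤ) : ℝ) / Real.log N ^ s))) := by
  classical
  obtain ⟨ε0, hε0d⟩ : ∃ ε0 : ℝ, ε0 = min ε 1 := ⟨_, rfl⟩
  have hε00 : 0 < ε0 := by rw [hε0d]; exact lt_min hε one_pos
  have hε01 : ε0 ≤ 1 := by rw [hε0d]; exact min_le_right _ _
  have hε0ε : ε0 ≤ ε := by rw [hε0d]; exact min_le_left _ _
  obtain ⟨E', hE'⟩ : ∃ E' : ℕ, E' = 1 + 2 * 2 ^ K * (s + ((2 * s + 1) + 10) + 6) + 32 := ⟨_, rfl⟩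
  have hE64 : 64 ≤ 2 * E' := by omega
  obtain ⟨D, hD, L1, hL1, hsc⟩ := scaleE hE64 s hs hε00 hε01
  have h40 : 40 ≤ L1 := by
    have : 40 ≤ lE s := by unfold lE; omega
    omega
  obtain ⟨L2, hL2⟩ : ∃ L2 : ℕ, L2 = 2 * L1 := ⟨_, rfl⟩
  obtain ⟨Q1, hQ1⟩ := exPP s hs K L1 L2 E' hL1 (by omega) (by omega) (by omega)
  obtain ⟨m, hm⟩ : ∃ m : ℕ, m = (s + 2) ^ 2 + 2 * (2 ^ K + 2) := ⟨_, rfl⟩
  obtain ⟨Kx, hKx⟩ : ∃ Kx : ℕ, Kx = 2 * E' * m * L2 := ⟨_, rfl⟩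
  have hKx0 : 0 < Kx := by
    rw [hKx]
    have h1 : 0 < E' := by omega
    have h2 : 0 < m := by rw [hm]; positivity
    have h3 : 0 < L2 := by omega
    positivity
  have hKx0r : (0 : ℝ) < Kx := by exact_mod_cast hKx0
  obtain ⟨δ1, hδ1⟩ : ∃ δ1 : ℝ, δ1 = 1 / (((2 * E' : ℕ) : ℝ) * L2) := ⟨_, rfl⟩
  have hE0 : (0 : ℝ) < ((2 * E' : ℕ) : ℝ) := by exact_mod_cast (by omega : 0 < 2 * E')
  have hL2r : (0 : ℝ) < L2 := by exact_mod_cast (by omega : 0 < L2)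
  have hδ10 : 0 < δ1 := by rw [hδ1]; positivity
  rw [← hδ1] at hQ1
  obtain ⟨δ, hδ⟩ : ∃ δ : ℝ, δ = min δ1 (1 / (2 * Kx)) := ⟨_, rfl⟩
  have hδ0 : 0 < δ := by rw [hδ]; exact lt_min hδ10 (by positivity)
  have hδ1' : δ ≤ δ1 := by rw [hδ]; exact min_le_left _ _
  have hδK : δ * Kx ≤ 1 / 2 := by
    have f2 : δ ≤ 1 / (2 * Kx) := by rw [hδ]; exact min_le_right _ _
    calc δ * Kx ≤ 1 / (2 * Kx) * Kx := mul_le_mul_of_nonneg_right f2 hKx0r.le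
      _ = 1 / 2 := by field_simp
  have hcS := cS_pos s
  refine ⟨D, hD, δ, hδ0, cS s / 2, by positivity, fun B κ hκ => ?_⟩
  obtain ⟨N1, hN1⟩ := hsc B κ hκ (Q1 + 3)
  refine ⟨N1 + (3 ^ Kx) ^ 2 + 1, fun N hN => ?_⟩
  obtain ⟨Q, hQ, hNL, hNU, j1, hr, hj2, y, hy0, hy1, hyβ, hP⟩ := hN1 N (by omega)
  rw [← hL2] at hNU
  have hN1r : (1 : ℝ) ≤ N := by exact_mod_cast (by omega : 1 ≤ N)
  have hN0 : (0 : ℝ) < N := by linarith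
  have hQ0 : (0 : ℝ) < Q := by exact_mod_cast (by omega : 0 < Q)
  have hy1' : y ≤ 1 := by
    have := Real.rpow_nonneg hN0.le (-κ)
    linarith
  obtain ⟨A, hA1, hAle, hAK⟩ := exists_A hKx0 hδK (by omega : 1 ≤ N) (by omega) hδ0.le
  have hAm : (A + 1) ^ (2 * E' * m) ≤ Q := by
    rw [hKx, pow_mul] at hAK
    exact (Nat.pow_le_pow_iff_left (by omega)).1 (hAK.trans hNU)
  have hAQ : (A + 1) ^ (2 * E' * (s + 2) ^ 2) ≤ Q := AS_pow hAm (Nat.mul_le_mul_left _ (by omega))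
  have hA4 := scale_A' hE64 hAQ
  have hAq : ((A : ℝ) + 1) ^ (2 * (2 ^ K + 2)) ≤ qk (2 * E') Q := AS_qk hE64 hAm (by omega)
  obtain ⟨⟨Bw, hBw, hBs⟩, hfrm⟩ := hP A hA1 hAQ
  refine ⟨j1, hr, hj2, y, hy0, hy1, hyβ, fun a ha P F hF hPN hFB => ?_⟩
  have haA : ∀ i, |a i| ≤ A := by
    intro i
    have := (ha i).2.trans hAle
    exact_mod_cast this
  have hexp : ∀ x : ℝ, (N : ℝ) ^ (x - δ1) ≤ (N : ℝ) ^ (x - δ) := fun x =>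
    Real.rpow_le_rpow_of_exponent_le hN1r (by linarith)
  obtain ⟨Ex, hEx1, hEx2⟩ := hQ1 Q (by omega) A hA1 hA4 hAq N hNL hNU Bw hBw hBs a (fun i => (ha i).1) P F hF
    (fun i => (hexp 1).trans (hPN i)) (fun i x hx hx' => by
      have f1 := hFB i x hx hx'
      rw [Real.rpow_add hN0, Real.rpow_one] at f1
      have f2 : ((|(F i).eval x| : ℤ) : ℝ) ≤ A * N := by
        refine f1.trans ?_
        rw [mul_comm]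
        exact mul_le_mul_of_nonneg_right hAle hN0.le
      exact_mod_cast f2)
  refine ⟨Ex, ?_, fun x hx hxE h hh hadm => ?_⟩
  · refine hEx1.trans ?_
    apply mul_le_mul_of_nonneg_right _ (prod_nonneg fun _ _ => Nat.cast_nonneg _)
    exact Real.rpow_le_rpow_of_exponent_le hN1r (by linarith)
  · obtain ⟨hhA, hgd⟩ := hEx2 x hx hxE h (fun i => (hh i).trans (Real.rpow_le_rpow_of_exponent_le hN1r hδ1'))
    obtain ⟨hA1', hA2'⟩ := twA_bounds (a := a) (h := h) (j1 := j1) hy0 hy1' (twG_nonempty (Nat.succ_pos _) (adm_of_nuP hadm))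
    obtain ⟨S, hS⟩ := exists_facP (fun i => (ha i).1) hgd.1 hadm
    refine ⟨hA1', hA2', S, hS, S_lower hadm hS, fun u v hu hv hW hpos => ?_⟩
    have q0 : (0 : ℤ) ≤ N := Int.natCast_nonneg _
    obtain ⟨g1, g2⟩ := hfrm a h (fun i => (ha i).1) haA hhA hgd hadm S hS u v (by linarith) (by linarith) (by
      refine le_trans ?_ ((hexp 1).trans hW)
      rw [Real.rpow_sub hN0, Real.rpow_one]
      apply div_le_div_of_nonneg_left hN0.le (Real.rpow_pos_of_pos hN0 _)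
      have h1 : (N : ℝ) ^ δ1 ≤ ((Q : ℝ) ^ L2) ^ δ1 := by
        apply Real.rpow_le_rpow hN0.le _ hδ10.le
        exact_mod_cast hNU
      refine h1.trans (le_of_eq ?_)
      unfold qk
      rw [← Real.rpow_natCast, ← Real.rpow_mul hQ0.le]
      congr 1
      rw [hδ1]
      field_simp) hpos
    exact ⟨abs_eps hε00 hε0ε g1, fun hnd => abs_eps hε00 hε0ε (g2 hnd)⟩

end Pool.Agent.Helper86.PE
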