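import Pool.Agent.Helper86.PE.C3
import Pool.Agent.Helper86.PE.D1

set_option autoImplicit false

/-!
# Pairs of linear forms at every scale, one of the shifts near the values of a polynomial
-/

open Finset Filter Topology Polynomial

namespace Pool.Agent.Helper86.PE

open Pool.Agent.H807R2.Dav hiding KK
open Pool.Agent.Helper86.PS
open Pool.Agent.Helper86.XS
open Pool.Agent.Helper86.DZ
open Pool.Agent.Helper86.UA
open Pool.Agent.Helper86.EA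
open Pool.Agent.Helper85.HP

lemma Del_pair {a m : ℤ} (hm : m ≠ 0) : Del (pa a) (ph m) ≠ 0 := by
  have e0 : (univ : Finset (Fin 2)).erase 0 = {1} := by decide
  have e1 : (univ : Finset (Fin 2)).erase 1 = {0} := by decide
  unfold Del
  rw [Fin.prod_univ_two, e0, e1, prod_singleton, prod_singleton]
  simp only [pa, ph, Matrix.cons_val_zero, Matrix.cons_val_one]
  apply mul_ne_zero
  · intro h; apply hm; linarith
  · intro h; apply hm; linarith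

/-- the exceptional points for all shifts near the values of the polynomial -/
theorem exG (K : ℕ) (L1 L2 E' : ℕ) (hL1 : lE 2 ≤ L1)
    (hL2 : 1 ≤ L2) (hE' : 1 + 2 * 2 ^ K * (3 + 13 + 6) ≤ E') (hE32 : 32 ≤ E') :
    ∃ Q0 : ℕ, ∀ Q : ℕ, Q0 ≤ Q → ∀ A : ℕ, 1 ≤ A → 4 * A + 1 ≤ Q → ((A : ℝ) + 1) ^ (2 * (2 ^ K + 2)) ≤ qk (2 * E') Q →
    ∀ N : ℕ, Q ^ L1 ≤ N → N ≤ Q ^ L2 → ∀ B : PC → ℝ, HW Q ((4 * A + 1) * N) B → ∑ j ∈ fam Q, B j ≤ 3 →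
    ∀ a : ℤ, a ≠ 0 → ∀ (P : ℕ) (F : ℤ[X]), 1 ≤ F.natDegree → F.natDegree ≤ K →
    (N : ℝ) ^ (1 - 1 / (((2 * E' : ℕ) : ℝ) * L2)) ≤ (P : ℝ) ^ F.natDegree →
    (∀ x : ℤ, 0 ≤ x → x < P → |F.eval x| ≤ A * N) →
    ∃ E : Finset ℤ, (E.card : ℝ) ≤ (N : ℝ) ^ (-(1 / (((2 * E' : ℕ) : ℝ) * L2))) * P ∧
      ∀ x : ℤ, 0 ≤ x → x < P → x ∉ E →
        ∀ m : ℤ, m ≠ 0 → ((|m - F.eval x| : ℤ) : ℝ) ≤ (N : ℝ) ^ (1 / (((2 * E' : ℕ) : ℝ) * L2)) →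
        |m| ≤ 2 * A * N ∧ Gd (2 * E') Q A N (pa a) (ph m) := by
  classical
  obtain ⟨Q1, hQ1⟩ := pair_count K 13 L1 L2 E' hL1 hE' hE32
  have hE0 : (0 : ℝ) < ((2 * E' : ℕ) : ℝ) := by exact_mod_cast (by omega : 0 < 2 * E')
  obtain ⟨Q3, hQ3⟩ := ev_log 25 0 (a := 1 / ((2 * E' : ℕ) : ℝ)) (by positivity)
  refine ⟨Q1 + Q3 + 3, fun Q hQ A hA hA4 hAq N hN1 hN2 B hw hBs a ha P F hF1 hFK hPN hFB => ?_⟩
  have hQ1' : 1 ≤ Q := by omega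
  have hQr : (1 : ℝ) ≤ Q := by exact_mod_cast hQ1'
  have hQ0 : (0 : ℝ) < Q := by linarith
  obtain ⟨q, hq⟩ : ∃ q : ℝ, q = qk (2 * E') Q := ⟨_, rfl⟩
  have hq1 : 1 ≤ q := by rw [hq]; exact qk_ge hQ1'
  have hq0 : 0 < q := by linarith
  have hqd : (Q : ℝ) ^ (1 / ((2 * E' : ℕ) : ℝ)) = q := by rw [hq]; rfl
  have h25q : 25 ≤ q := by
    have := hQ3 Q (by omega)
    rwa [pow_zero, mul_one, hqd] at this
  have hNpos : 0 < N := lt_of_lt_of_le (by positivity) hN1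
  have hN0 : (0 : ℝ) < N := by exact_mod_cast hNpos
  have hN1r : (1 : ℝ) ≤ N := by exact_mod_cast hNpos
  obtain ⟨δ, hδ⟩ : ∃ δ : ℝ, δ = 1 / (((2 * E' : ℕ) : ℝ) * L2) := ⟨_, rfl⟩
  rw [← hδ]
  rw [← hδ] at hPN
  have hL2r : (0 : ℝ) < L2 := by exact_mod_cast hL2
  have hδ0 : 0 < δ := by rw [hδ]; positivity
  have hNδ : (N : ℝ) ^ δ ≤ q := by
    have h1 : (N : ℝ) ^ δ ≤ ((Q : ℝ) ^ L2) ^ δ := by
      apply Real.rpow_le_rpow hN0.le _ hδ0.le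
      exact_mod_cast hN2
    refine h1.trans (le_of_eq ?_)
    rw [← hqd, ← Real.rpow_natCast, ← Real.rpow_mul (by linarith)]
    congr 1
    rw [hδ]
    field_simp
  have hNδ0 : 0 < (N : ℝ) ^ δ := Real.rpow_pos_of_pos hN0 _
  have hsplit : (N : ℝ) = (N : ℝ) ^ δ * (N : ℝ) ^ (1 - δ) := by
    rw [← Real.rpow_add hN0]
    have : δ + (1 - δ) = 1 := by ring
    rw [this, Real.rpow_one]
  have hqQ : ∀ n : ℕ, n ≤ 2 * E' → q ^ n ≤ Q := by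
    intro n hn
    rw [hq]
    exact qk_le (by omega) hQ1' hn
  have hQN : Q ≤ N := by
    have h40 : 40 ≤ lE 2 := by unfold lE; omega
    have h1 : Q ≤ Q ^ L1 := Nat.le_self_pow (by omega) Q
    omega
  obtain ⟨T, hT⟩ : ∃ T : ℕ, T = ⌊(N : ℝ) ^ δ⌋₊ := ⟨_, rfl⟩
  have hTq : (T : ℝ) ≤ q := by rw [hT]; exact (Nat.floor_le hNδ0.le).trans hNδ
  have hTN : T ≤ N := by
    have h1 : (T : ℝ) ≤ Q := hTq.trans (by simpa using hqQ 1 (by omega))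
    have h2 : T ≤ Q := by exact_mod_cast h1
    omega
  have hP1 : 1 ≤ P := by
    by_contra hc
    have h0 : P = 0 := by omega
    rw [h0, Nat.cast_zero, zero_pow (by omega)] at hPN
    have := Real.rpow_pos_of_pos hN0 (1 - δ)
    linarith
  have hP0 : (0 : ℝ) ≤ P := Nat.cast_nonneg _
  have hPN' : (N : ℝ) ≤ q * (P : ℝ) ^ F.natDegree := by
    calc (N : ℝ) = (N : ℝ) ^ δ * (N : ℝ) ^ (1 - δ) := hsplit
      _ ≤ q * (P : ℝ) ^ F.natDegree := mul_le_mul hNδ hPN (Real.rpow_nonneg hN0.le _) hq0.le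
  obtain ⟨G, hG⟩ : ∃ G : ℕ, G = cg (2 * E') Q N := ⟨_, rfl⟩
  obtain ⟨k0, hk0⟩ : ∃ k0 : ℕ, k0 = kk (2 * E') Q := ⟨_, rfl⟩
  obtain ⟨J, hJ⟩ : ∃ J : Finset ℤ, J = Icc (-(2 * k0 : ℤ)) (2 * k0) := ⟨_, rfl⟩
  obtain ⟨Ts, hTs⟩ : ∃ Ts : Finset ℤ, Ts = Icc (-(T : ℤ)) T := ⟨_, rfl⟩
  have hKq : (k0 : ℝ) ≤ q ^ 4 := by rw [hk0, hq]; exact kk_le hQ1'
  have hKN : k0 ≤ N := by
    have h1 : (k0 : ℝ) ≤ Q := hKq.trans (hqQ 4 (by omega))
    have h2 : k0 ≤ Q := by exact_mod_cast h1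
    omega
  have hKG : k0 * G ≤ 2 * N := by
    have e1 : k0 * G = k0 * (N / k0) + k0 := by rw [hG, hk0]; unfold cg; ring
    have e2 := Nat.mul_div_le N k0
    omega
  have hkG : ∀ k ∈ J, -(4 * N : ℤ) ≤ k * G ∧ k * G ≤ 4 * N := by
    intro k hk
    rw [hJ, mem_Icc] at hk
    have h1 : (k0 : ℤ) * G ≤ 2 * N := by exact_mod_cast hKG
    have hG0 : (0 : ℤ) ≤ G := Int.natCast_nonneg _
    constructor
    · have := mul_le_mul_of_nonneg_right hk.1 hG0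
      linarith
    · have := mul_le_mul_of_nonneg_right hk.2 hG0
      linarith
  have hTA : ∀ t ∈ Ts, ∀ x : ℤ, 0 ≤ x → x < P → |F.eval x + t| ≤ 2 * A * N := by
    intro t ht x hx hx'
    rw [hTs, mem_Icc] at ht
    have h1 := hFB x hx hx'
    have h3 : |t| ≤ T := abs_le.2 ht
    have h4 := abs_add_le (F.eval x) t
    have h5 : (T : ℤ) ≤ N := by exact_mod_cast hTN
    have h6 : (1 : ℤ) ≤ A := by exact_mod_cast hA
    have h7 : (N : ℤ) ≤ A * N := le_mul_of_one_le_left (Int.natCast_nonneg _) h6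
    linarith
  obtain ⟨Yk, hYk⟩ : ∃ Yk : ℤ × (ℤ × ℤ) → Finset ℤ, Yk = fun k => (Ico (0 : ℤ) P).filter (fun x =>
    (N : ℝ) / q ^ 4 < ‖DI Q ((4 * A + 1) * N) (pa a) (ph (F.eval x + k.1)) (k.2.1 * G) (k.2.2 * G)‖) := ⟨_, rfl⟩
  have hone : ∀ k ∈ Ts ×ˢ (J ×ˢ J), ((Yk k).card : ℝ) ≤ P / q ^ 13 := by
    intro k hk
    rw [mem_product, mem_product] at hk
    have h1 := hQ1 Q (by omega) A hA hA4 hAq N hN1 hN2 B hw hBs a ha F.natDegree P (fun x => F.eval x + k.1) hF1 hFK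
      ⟨F + C k.1, natDegree_add_C, fun y => by rw [eval_add, eval_C]⟩ hP1 (by rw [← hq]; exact hPN')
      (fun x hx => by
        rw [mem_Ico] at hx
        exact hTA k.1 hk.1 x hx.1 hx.2) (k.2.1 * G) (k.2.2 * G) (hkG _ hk.2.1).1 (hkG _ hk.2.1).2 (hkG _ hk.2.2).1
      (hkG _ hk.2.2).2 (Yk k) (by rw [hYk]; exact filter_subset _ _) (by
        intro x hx
        rw [hYk, mem_filter] at hx
        rw [← hq]
        exact hx.2)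
    rwa [← hq] at h1
  refine ⟨(Ts ×ˢ (J ×ˢ J)).biUnion Yk, ?_, ?_⟩
  · have hJc : (J.card : ℝ) ≤ 5 * q ^ 4 := by
      have h1 : J.card ≤ 4 * k0 + 1 := by
        rw [hJ, Int.card_Icc]
        omega
      have h2 : (J.card : ℝ) ≤ 4 * k0 + 1 := by exact_mod_cast h1
      have h3 : 1 ≤ q ^ 4 := one_le_pow₀ hq1
      linarith
    have hTc : (Ts.card : ℝ) ≤ q ^ 2 := by
      have h1 : Ts.card = 2 * T + 1 := by
        rw [hTs, Int.card_Icc]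
        omega
      rw [h1]
      push_cast
      nlinarith
    have hcard : (((Ts ×ˢ (J ×ˢ J)).biUnion Yk).card : ℝ) ≤ ∑ k ∈ Ts ×ˢ (J ×ˢ J), ((Yk k).card : ℝ) := by
      exact_mod_cast card_biUnion_le
    refine (hcard.trans (sum_le_sum hone)).trans ?_
    rw [sum_const, nsmul_eq_mul, card_product, card_product]
    push_cast
    have hTc0 : (0 : ℝ) ≤ Ts.card := Nat.cast_nonneg _
    have hJc0 : (0 : ℝ) ≤ J.card := Nat.cast_nonneg _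
    calc (Ts.card : ℝ) * (J.card * J.card) * (P / q ^ 13) ≤
        q ^ 2 * ((5 * q ^ 4) * (5 * q ^ 4)) * (P / q ^ 13) := by
          have hq4 : 0 ≤ 5 * q ^ 4 := by positivity
          have hPq : 0 ≤ (P : ℝ) / q ^ 13 := div_nonneg hP0 (pow_nonneg hq0.le 13)
          exact mul_le_mul_of_nonneg_right (mul_le_mul hTc (mul_le_mul hJc hJc hJc0 hq4) (mul_nonneg hJc0 hJc0)
            (pow_nonneg hq0.le 2)) hPq
      _ = 25 * (P / q ^ 3) := by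
        rw [show q ^ 13 = q ^ 10 * q ^ 3 by ring]
        field_simp
        ring
      _ ≤ q * (P / q ^ 3) := mul_le_mul_of_nonneg_right h25q (div_nonneg hP0 (pow_nonneg hq0.le 3))
      _ = P / q ^ 2 := by
        rw [show q ^ 3 = q * q ^ 2 by ring, ← mul_div_assoc, mul_div_mul_left _ _ hq0.ne']
      _ ≤ P / q := div_le_div_of_nonneg_left hP0 hq0 (le_self_pow₀ hq1 (by norm_num))
      _ = q⁻¹ * P := by rw [div_eq_mul_inv, mul_comm]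
      _ ≤ (N : ℝ) ^ (-δ) * P := by
        apply mul_le_mul_of_nonneg_right _ hP0
        rw [Real.rpow_neg hN0.le]
        exact inv_anti₀ hNδ0 hNδ
  · intro x hx0 hxP hxE m hm hmF
    obtain ⟨t, ht⟩ : ∃ t : ℤ, t = m - F.eval x := ⟨_, rfl⟩
    have hmt : F.eval x + t = m := by rw [ht]; ring
    have htT : t ∈ Ts := by
      rw [hTs, mem_Icc, ← abs_le]
      have h2 : |t| = (t.natAbs : ℤ) := Int.abs_eq_natAbs _
      rw [h2]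
      have h3 : (t.natAbs : ℝ) ≤ (N : ℝ) ^ δ := by
        have h4 : (t.natAbs : ℝ) = ((|t| : ℤ) : ℝ) := by rw [h2]; simp
        rw [h4, ht]
        exact hmF
      have h5 := Nat.le_floor h3
      rw [← hT] at h5
      exact_mod_cast h5
    refine ⟨by rw [← hmt]; exact hTA t htT x hx0 hxP, Del_pair hm, fun k1 k2 hk1 hk2 => ?_⟩
    by_contra hc
    push Not at hc
    apply hxE
    rw [mem_biUnion]
    refine ⟨(t, (k1, k2)), ?_, ?_⟩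
    · rw [mem_product, mem_product, hJ, mem_Icc, mem_Icc, hk0]
      exact ⟨htT, abs_le.1 hk1, abs_le.1 hk2⟩
    · rw [hYk, mem_filter]
      simp only
      refine ⟨mem_Ico.2 ⟨hx0, hxP⟩, ?_⟩
      rw [hmt, hq, hG]
      exact hc

/-- **pairs of linear forms at every scale**, one of the shifts near the values of a polynomial -/
theorem everyG (K : ℕ) {ε : ℝ} (hε : 0 < ε) :
    ∃ D : ℕ, 0 < D ∧ ∃ δ : ℝ, 0 < δ ∧ ∃ c : ℝ, 0 < c ∧ ∀ B : ℕ, ∀ κ : ℝ, 0 < κ → ∃ N0 : ℕ, ∀ N : ℕ, N0 ≤ N →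
    ∃ j1 : PC, Real.log N ^ B ≤ ((j1.1 + 1 : ℕ) : ℝ) ∧ j1.2 ^ 2 = 1 ∧ ∃ y : ℝ, 0 ≤ y ∧ y ≤ 1 - (N : ℝ) ^ (-κ) ∧
      (y = 0 ∨ (j1.2.IsPrimitive ∧ j1.2 ≠ 1 ∧ ∃ β : ℝ, y = (N : ℝ) ^ (β - 1) ∧ j1.2.LFunction β = 0)) ∧
    ∀ a : ℤ, a ≠ 0 → ((|a| : ℤ) : ℝ) ≤ (N : ℝ) ^ δ →
    ∀ (P : ℕ) (F : ℤ[X]), 1 ≤ F.natDegree → F.natDegree ≤ K → (N : ℝ) ^ (1 - δ) ≤ (P : ℝ) ^ F.natDegree →
    (∀ x : ℤ, 0 ≤ x → x < P → ((|F.eval x| : ℤ) : ℝ) ≤ (N : ℝ) ^ (1 + δ)) →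
    ∃ E : Finset ℤ, (E.card : ℝ) ≤ (N : ℝ) ^ (-δ) * P ∧ ∀ x : ℤ, 0 ≤ x → x < P → x ∉ E →
    ∀ m : ℤ, m ≠ 0 → ((|m - F.eval x| : ℤ) : ℝ) ≤ (N : ℝ) ^ δ → (∀ p : ℕ, p.Prime → nuP (pa a) (ph m) p < p) →
    (1 - y) ^ 2 ≤ twA j1 y (pa a) (ph m) ∧ twA j1 y (pa a) (ph m) ≤ 2 ^ 2 ∧
    ∃ S : ℝ, HasProd (fun p : Nat.Primes => facP (pa a) (ph m) (p : ℕ)) S ∧ c ≤ S ∧ ∀ u v : ℤ, -(2 * N : ℤ) ≤ u → v ≤ 2 * N →
      (N : ℝ) ^ (1 - δ) ≤ ((v - u : ℤ) : ℝ) → (∀ n ∈ Ico u v, ∀ i, 1 ≤ pa a i * n + ph m i) →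
      |(pc (pa a) (ph m) u v : ℝ) - twA j1 y (pa a) (ph m) * S * (((v - u : ℤ) : ℝ) / Real.log N ^ 2)| ≤
        ε * (twA j1 y (pa a) (ph m) * S * (((v - u : ℤ) : ℝ) / Real.log N ^ 2)) ∧
      (¬ ((j1.1 + 1 : ℕ) : ℤ) ∣ (D : ℤ) * (m ^ 2 * a) →
        |(pc (pa a) (ph m) u v : ℝ) - S * (((v - u : ℤ) : ℝ) / Real.log N ^ 2)| ≤
          ε * (S * (((v - u : ℤ) : ℝ) / Real.log N ^ 2))) := by
  classical
  obtain ⟨ε0, hε0d⟩ : ∃ ε0 : ℝ, ε0 = min ε 1 := ⟨_, rfl⟩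
  have hε00 : 0 < ε0 := by rw [hε0d]; exact lt_min hε one_pos
  have hε01 : ε0 ≤ 1 := by rw [hε0d]; exact min_le_right _ _
  have hε0ε : ε0 ≤ ε := by rw [hε0d]; exact min_le_left _ _
  obtain ⟨E', hE'⟩ : ∃ E' : ℕ, E' = 1 + 2 * 2 ^ K * (3 + 13 + 6) + 32 := ⟨_, rfl⟩
  have hE64 : 64 ≤ 2 * E' := by omega
  obtain ⟨D, hD, L1, hL1, hsc⟩ := scaleE hE64 2 (by norm_num) hε00 hε01
  have h40 : 40 ≤ L1 := by
    have : 40 ≤ lE 2 := by unfold lE; omega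
    omega
  obtain ⟨L2, hL2⟩ : ∃ L2 : ℕ, L2 = 2 * L1 := ⟨_, rfl⟩
  obtain ⟨Q1, hQ1⟩ := exG K L1 L2 E' hL1 (by omega) (by omega) (by omega)
  obtain ⟨m0, hm0⟩ : ∃ m0 : ℕ, m0 = (2 + 2) ^ 2 + 2 * (2 ^ K + 2) := ⟨_, rfl⟩
  obtain ⟨Kx, hKx⟩ : ∃ Kx : ℕ, Kx = 2 * E' * m0 * L2 := ⟨_, rfl⟩
  have hKx0 : 0 < Kx := by
    rw [hKx]
    have h1 : 0 < E' := by omega
    have h2 : 0 < m0 := by rw [hm0]; positivity
    have h3 : 0 < L2 := by omega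
    positivity
  have hKx0r : (0 : ℝ) < Kx := by exact_mod_cast hKx0
  obtain ⟨δ1, hδ1⟩ : ∃ δ1 : ℝ, δ1 = 1 / (((2 * E' : ℕ) : ℝ) * L2) := ⟨_, rfl⟩
  have hE0 : (0 : ℝ) < ((2 * E' : ℕ) : ℝ) := by exact_mod_cast (by omega : 0 < 2 * E')
  have hL2r : (0 : ℝ) < L2 := by exact_mod_cast (by omega : 0 < L2)
  have hδ10 : 0 < δ1 := by rw [hδ1]; positivity
  rw [← hδ1] at hQ1
  obtain ⟨δ, hδ⟩ : ∃ δ : ℝ, δ = min δ1 (1 / (2 * Kx)) := ⟨_, rfl⟩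
  have hδ0 : 0 < δ := by rw [hδ]; exact lt_min hδ10 (by positivity)
  have hδ1' : δ ≤ δ1 := by rw [hδ]; exact min_le_left _ _
  have hδK : δ * Kx ≤ 1 / 2 := by
    have f2 : δ ≤ 1 / (2 * Kx) := by rw [hδ]; exact min_le_right _ _
    calc δ * Kx ≤ 1 / (2 * Kx) * Kx := mul_le_mul_of_nonneg_right f2 hKx0r.le
      _ = 1 / 2 := by field_simp
  have hcS := cS_pos 2
  refine ⟨D, hD, δ, hδ0, cS 2 / 2, by positivity, fun B κ hκ => ?_⟩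
  obtain ⟨N1, hN1⟩ := hsc B κ hκ (Q1 + 3)
  refine ⟨N1 + (3 ^ Kx) ^ 2 + 1, fun N hN => ?_⟩
  obtain ⟨Q, hQ, hNL, hNU, j1, hr, hj2, y, hy0, hy1, hyβ, hP⟩ := hN1 N (by omega)
  rw [← hL2] at hNU
  have hN1r : (1 : ℝ) ≤ N := by exact_mod_cast (by omega : 1 ≤ N)
  have hN0 : (0 : ℝ) < N := by linarith
  have hQ0 : (0 : ℝ) < Q := by exact_mod_cast (by omega : 0 < Q)
  have hy1' : y ≤ 1 := by
    have := Real.rpow_nonneg hN0.le (-κ)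
    linarith
  obtain ⟨A, hA1, hAle, hAK⟩ := exists_A hKx0 hδK (by omega : 1 ≤ N) (by omega) hδ0.le
  have hAm : (A + 1) ^ (2 * E' * m0) ≤ Q := by
    rw [hKx, pow_mul] at hAK
    exact (Nat.pow_le_pow_iff_left (by omega)).1 (hAK.trans hNU)
  have hAQ : (A + 1) ^ (2 * E' * (2 + 2) ^ 2) ≤ Q := AS_pow hAm (Nat.mul_le_mul_left _ (by omega))
  have hA4 := scale_A' hE64 hAQ
  have hAq : ((A : ℝ) + 1) ^ (2 * (2 ^ K + 2)) ≤ qk (2 * E') Q := AS_qk hE64 hAm (by omega)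
  obtain ⟨⟨Bw, hBw, hBs⟩, hfrm⟩ := hP A hA1 hAQ
  refine ⟨j1, hr, hj2, y, hy0, hy1, hyβ, fun a ha haN P F hF1 hFK hPN hFB => ?_⟩
  have haA : |a| ≤ A := by
    have := haN.trans hAle
    exact_mod_cast this
  have hpa0 : ∀ i, pa a i ≠ 0 := by
    intro i; fin_cases i
    · simp [pa]
    · simpa [pa] using ha
  have hpaA : ∀ i, |pa a i| ≤ A := by
    intro i; fin_cases i
    · simp only [pa, Fin.zero_eta, Matrix.cons_val_zero, abs_one]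
      exact_mod_cast hA1
    · simpa [pa] using haA
  have hexp : ∀ x : ℝ, (N : ℝ) ^ (x - δ1) ≤ (N : ℝ) ^ (x - δ) := fun x =>
    Real.rpow_le_rpow_of_exponent_le hN1r (by linarith)
  obtain ⟨Ex, hEx1, hEx2⟩ := hQ1 Q (by omega) A hA1 hA4 hAq N hNL hNU Bw hBw hBs a ha P F hF1 hFK
    ((hexp 1).trans hPN) (fun x hx hx' => by
      have f1 := hFB x hx hx'
      rw [Real.rpow_add hN0, Real.rpow_one] at f1
      have f2 : ((|F.eval x| : ℤ) : ℝ) ≤ A * N := by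
        refine f1.trans ?_
        rw [mul_comm]
        exact mul_le_mul_of_nonneg_right hAle hN0.le
      exact_mod_cast f2)
  refine ⟨Ex, ?_, fun x hx0 hxP hxE m hm hmF hadm => ?_⟩
  · refine hEx1.trans ?_
    apply mul_le_mul_of_nonneg_right _ (Nat.cast_nonneg _)
    exact Real.rpow_le_rpow_of_exponent_le hN1r (by linarith)
  · obtain ⟨hmA, hgd⟩ := hEx2 x hx0 hxP hxE m hm (hmF.trans (Real.rpow_le_rpow_of_exponent_le hN1r hδ1'))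
    obtain ⟨hA1', hA2'⟩ := twA_bounds (a := pa a) (h := ph m) (j1 := j1) hy0 hy1'
      (twG_nonempty (Nat.succ_pos _) (adm_of_nuP hadm))
    obtain ⟨S, hS⟩ := exists_facP hpa0 hgd.1 hadm
    refine ⟨hA1', hA2', S, hS, S_lower hadm hS, fun u v hu hv hW hpos => ?_⟩
    have q0 : (0 : ℤ) ≤ N := Int.natCast_nonneg _
    obtain ⟨g1, g2⟩ := hfrm (pa a) (ph m) hpa0 hpaA (by
      intro i; fin_cases i
      · simp only [ph, Fin.zero_eta, Matrix.cons_val_zero, abs_zero]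
        positivity
      · simpa [ph] using hmA) hgd hadm S hS u v hu hv (by
      refine le_trans ?_ ((hexp 1).trans hW)
      rw [Real.rpow_sub hN0, Real.rpow_one]
      apply div_le_div_of_nonneg_left hN0.le (Real.rpow_pos_of_pos hN0 _)
      have h1 : (N : ℝ) ^ δ1 ≤ ((Q : ℝ) ^ L2) ^ δ1 := by
        apply Real.rpow_le_rpow hN0.le _ hδ10.le
        exact_mod_cast hNU
      refine h1.trans (le_of_eq ?_)
      unfold qk
      rw [← Real.rpow_natCast, ← Real.rpow_mul hQ0.le]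
      congr 1
      rw [hδ1]
      field_simp) hpos
    refine ⟨abs_eps hε00 hε0ε g1, fun hnd => abs_eps hε00 hε0ε (g2 ?_)⟩
    intro hdvd
    apply hnd
    have e0 : (univ : Finset (Fin 2)).erase 0 = {1} := by decide
    have e1 : (univ : Finset (Fin 2)).erase 1 = {0} := by decide
    have hDel : Del (pa a) (ph m) * ∏ i, pa a i = -(m ^ 2 * a) := by
      unfold Del
      rw [Fin.prod_univ_two, Fin.prod_univ_two, e0, e1, prod_singleton, prod_singleton]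
      simp only [pa, ph, Matrix.cons_val_zero, Matrix.cons_val_one]
      ring
    rw [hDel, mul_neg, dvd_neg] at hdvd
    exact hdvd

end Pool.Agent.Helper86.PE
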