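import Pool.Agent.Helper85.HP.C5
import Pool.Agent.Helper86.PE.B2

set_option autoImplicit false

/-!
# The exceptional points of polynomial families
-/

open Finset Filter Topology Polynomial

namespace Pool.Agent.Helper86.PE

open Pool.Agent.H807R2.Dav hiding KK
open Pool.Agent.Helper86.PS
open Pool.Agent.Helper86.XS
open Pool.Agent.Helper85.HP

/-- a good vector of shifts: the model replaces the primes on the intervals of the grid -/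
def Gd {s : ℕ} (E Q A N : ℕ) (a h : Fin s → ℤ) : Prop :=
  Del a h ≠ 0 ∧ ∀ k1 k2 : ℤ, |k1| ≤ 2 * kk E Q → |k2| ≤ 2 * kk E Q →
    ‖DI Q ((4 * A + 1) * N) a h (k1 * cg E Q N) (k2 * cg E Q N)‖ ≤ N / qk E Q ^ 4

theorem exP (s : ℕ) (hs : 1 ≤ s) (K : ℕ) (c L1 L2 E' : ℕ) (hL1 : lE s ≤ L1)
    (hE' : 1 + 2 * 2 ^ K * (s + (c + 10) + 6) ≤ E') (hE32 : 32 ≤ E') :
    ∃ Q0 : ℕ, ∀ Q : ℕ, Q0 ≤ Q → ∀ A : ℕ, 1 ≤ A → 4 * A + 1 ≤ Q → ((A : ℝ) + 1) ^ (2 * (2 ^ K + 2)) ≤ qk (2 * E') Q →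
    ∀ N : ℕ, Q ^ L1 ≤ N → N ≤ Q ^ L2 → ∀ B : PC → ℝ, HW Q ((4 * A + 1) * N) B → ∑ j ∈ fam Q, B j ≤ 3 →
    ∀ a : Fin s → ℤ, (∀ i, a i ≠ 0) →
    ∀ (d P : Fin s → ℕ) (f : Fin s → ℤ → ℤ), (∀ i, 1 ≤ d i ∧ d i ≤ K) → (∀ i, IsPol (d i) (f i)) → (∀ i, 1 ≤ P i) →
    (∀ i, (N : ℝ) ≤ qk (2 * E') Q * (P i : ℝ) ^ d i) → (∀ i, ∀ x ∈ Ico (0 : ℤ) (P i), |f i x| ≤ 2 * A * N) →
    ∃ E : Finset (Fin s → ℤ), (E.card : ℝ) ≤ (∏ i, (P i : ℝ)) / qk (2 * E') Q ^ c ∧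
      ∀ x ∈ Fintype.piFinset (fun i => Ico (0 : ℤ) (P i)), x ∉ E → Gd (2 * E') Q A N a (fun i => f i (x i)) := by
  classical
  have hsr : (1 : ℝ) ≤ s := by exact_mod_cast hs
  obtain ⟨Q1, hQ1⟩ := poly_count3 s hs K (c + 10) L1 L2 E' hL1 hE' hE32
  have hE0 : (0 : ℝ) < ((2 * E' : ℕ) : ℝ) := by exact_mod_cast (by omega : 0 < 2 * E')
  obtain ⟨Q3, hQ3⟩ := ev_log (max ((s : ℝ) * s * K) 25) 0 (a := 1 / ((2 * E' : ℕ) : ℝ)) (by positivity)
  refine ⟨Q1 + Q3 + 3, fun Q hQ A hA hA4 hAq N hN1 hN2 B hw hBs a ha d P f hd hf hP hPN hfB => ?_⟩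
  have hQ1' : 1 ≤ Q := by omega
  have hQr : (1 : ℝ) ≤ Q := by exact_mod_cast hQ1'
  have hQ2r : (2 : ℝ) ≤ Q := by exact_mod_cast (by omega : 2 ≤ Q)
  obtain ⟨q, hq⟩ : ∃ q : ℝ, q = qk (2 * E') Q := ⟨_, rfl⟩
  have hq1 : 1 ≤ q := by rw [hq]; exact qk_ge hQ1'
  have hq0 : 0 < q := by linarith
  have hqd : (Q : ℝ) ^ (1 / ((2 * E' : ℕ) : ℝ)) = q := by rw [hq]; rfl
  have hmaxq : max ((s : ℝ) * s * K) 25 ≤ q := by
    have := hQ3 Q (by omega)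
    rwa [pow_zero, mul_one, hqd] at this
  have hsKq : (s : ℝ) * s * K ≤ q := (le_max_left _ _).trans hmaxq
  have h25q : 25 ≤ q := (le_max_right _ _).trans hmaxq
  have hNpos : 0 < N := lt_of_lt_of_le (by positivity) hN1
  have hN0 : (0 : ℝ) < N := by exact_mod_cast hNpos
  obtain ⟨G, hG⟩ : ∃ G : ℕ, G = cg (2 * E') Q N := ⟨_, rfl⟩
  obtain ⟨k0, hk0⟩ : ∃ k0 : ℕ, k0 = kk (2 * E') Q := ⟨_, rfl⟩
  obtain ⟨J, hJ⟩ : ∃ J : Finset ℤ, J = Icc (-(2 * k0 : ℤ)) (2 * k0) := ⟨_, rfl⟩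
  have hKq : (k0 : ℝ) ≤ q ^ 4 := by rw [hk0, hq]; exact kk_le hQ1'
  have hQN : Q < N := by
    have h40 : 40 ≤ lE s := by unfold lE; omega
    have h1 : Q ^ 2 ≤ Q ^ L1 := Nat.pow_le_pow_right (by omega) (by omega)
    have h2 : Q * 1 < Q * Q := Nat.mul_lt_mul_of_pos_left (by omega) (by omega)
    have h3 : Q ^ 2 = Q * Q := sq Q
    omega
  have hqQ : ∀ n : ℕ, n ≤ 2 * E' → q ^ n ≤ Q := by
    intro n hn
    rw [hq]
    exact qk_le (by omega) hQ1' hn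
  have hKN : k0 ≤ N := by
    have h1 : (k0 : ℝ) ≤ Q := hKq.trans (hqQ 4 (by omega))
    have h2 : k0 ≤ Q := by exact_mod_cast h1
    omega
  have hKG : k0 * G ≤ 2 * N := by
    have e1 : k0 * G = k0 * (N / k0) + k0 := by rw [hG, hk0]; unfold cg; ring
    have e2 := Nat.mul_div_le N k0
    omega
  have hkG : ∀ k ∈ J, -(4 * N : ℤ) ≤ k * G ∧ k * G ≤ 4 * N := by
    intro k hk
    rw [hJ, mem_Icc] at hk
    have h1 : (k0 : ℤ) * G ≤ 2 * N := by exact_mod_cast hKG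
    have hG0 : (0 : ℤ) ≤ G := Int.natCast_nonneg _
    constructor
    · have := mul_le_mul_of_nonneg_right hk.1 hG0
      linarith
    · have := mul_le_mul_of_nonneg_right hk.2 hG0
      linarith
  obtain ⟨X, hX⟩ : ∃ X : Finset (Fin s → ℤ), X = Fintype.piFinset (fun i => Ico (0 : ℤ) (P i)) := ⟨_, rfl⟩
  obtain ⟨Yk, hYk⟩ : ∃ Yk : ℤ × ℤ → Finset (Fin s → ℤ), Yk = fun k => X.filter (fun x =>
    (N : ℝ) / q ^ 4 < ‖DI Q ((4 * A + 1) * N) a (fun i => f i (x i)) (k.1 * G) (k.2 * G)‖) := ⟨_, rfl⟩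
  obtain ⟨Z, hZ⟩ : ∃ Z : Finset (Fin s → ℤ), Z = X.filter (fun x => Del a (fun i => f i (x i)) = 0) := ⟨_, rfl⟩
  obtain ⟨E, hE⟩ : ∃ E : Finset (Fin s → ℤ), E = Z ∪ (J ×ˢ J).biUnion Yk := ⟨_, rfl⟩
  have hPi0 : 0 ≤ ∏ i, (P i : ℝ) := prod_nonneg fun _ _ => Nat.cast_nonneg _
  have hone : ∀ k ∈ J ×ˢ J, ((Yk k).card : ℝ) ≤ (∏ i, (P i : ℝ)) / q ^ (c + 10) := by
    intro k hk
    rw [mem_product] at hk
    have h1 := hQ1 Q (by omega) A hA hA4 hAq N hN1 hN2 B hw hBs a ha d P f hd hf hP hPN hfB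
      (k.1 * G) (k.2 * G) (by linarith [(hkG _ hk.1).1, (hkG _ hk.2).2]) (Yk k) (by rw [hYk, hX]; exact filter_subset _ _) (by
        intro x hx
        rw [hYk, mem_filter] at hx
        rw [← hq]
        exact hx.2)
    rwa [← hq] at h1
  -- the size of the `P i`
  have hPm : ∀ i, q ^ (c + 10) ≤ P i := by
    intro i
    by_contra hc
    push Not at hc
    have h1 : (P i : ℝ) ^ d i ≤ (q ^ (c + 10)) ^ d i := pow_le_pow_left₀ (Nat.cast_nonneg _) hc.le _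
    have h2 : (q ^ (c + 10)) ^ d i ≤ (q ^ (c + 10)) ^ K := pow_le_pow_right₀ (one_le_pow₀ hq1) (hd i).2
    have h3 : (N : ℝ) ≤ q * (q ^ (c + 10)) ^ K := by
      have := hPN i
      rw [← hq] at this
      exact this.trans (mul_le_mul_of_nonneg_left (h1.trans h2) hq0.le)
    have h4 : q * (q ^ (c + 10)) ^ K = q ^ (1 + (c + 10) * K) := by
      rw [pow_add q 1, pow_one, pow_mul]
    have h5 : 1 + (c + 10) * K ≤ 2 * E' := by
      have hK2 : K ≤ 2 ^ K := Nat.lt_two_pow_self.le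
      have g1 : (c + 10) * K ≤ (s + (c + 10) + 6) * 2 ^ K := Nat.mul_le_mul (by omega) hK2
      have g2 : 2 * 2 ^ K * (s + (c + 10) + 6) = 2 * ((s + (c + 10) + 6) * 2 ^ K) := by ring
      omega
    have h6 := hqQ _ h5
    rw [h4] at h3
    have h7 : (N : ℝ) ≤ Q := h3.trans h6
    have h8 : N ≤ Q := by exact_mod_cast h7
    omega
  have hZc : (Z.card : ℝ) ≤ (∏ i, (P i : ℝ)) / q ^ (c + 1) := by
    have h1 := card_Del_pol (a := a) ha hd hf (m := q ^ (c + 10)) (by positivity) hPm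
    rw [hZ, hX]
    refine h1.trans ?_
    calc (s : ℝ) * s * (K * ((∏ i, (P i : ℝ)) / q ^ (c + 10))) = ((s : ℝ) * s * K) * ((∏ i, (P i : ℝ)) / q ^ (c + 10)) := by ring
      _ ≤ q * ((∏ i, (P i : ℝ)) / q ^ (c + 10)) := mul_le_mul_of_nonneg_right hsKq (by positivity)
      _ = (∏ i, (P i : ℝ)) / q ^ (c + 9) := by
        rw [pow_succ q (c + 9)]
        field_simp
      _ ≤ _ := by
        apply div_le_div_of_nonneg_left hPi0 (by positivity)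
        exact pow_le_pow_right₀ hq1 (by omega)
  have hJc : (J.card : ℝ) ≤ 5 * q ^ 4 := by
    have h1 : J.card ≤ 4 * k0 + 1 := by
      rw [hJ, Int.card_Icc]
      omega
    have h2 : (J.card : ℝ) ≤ 4 * k0 + 1 := by exact_mod_cast h1
    have h3 : 1 ≤ q ^ 4 := one_le_pow₀ hq1
    linarith
  have hUc : (((J ×ˢ J).biUnion Yk).card : ℝ) ≤ (∏ i, (P i : ℝ)) / q ^ (c + 1) := by
    have hcard : (((J ×ˢ J).biUnion Yk).card : ℝ) ≤ ∑ k ∈ J ×ˢ J, ((Yk k).card : ℝ) := by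
      exact_mod_cast card_biUnion_le
    refine (hcard.trans (sum_le_sum hone)).trans ?_
    rw [sum_const, nsmul_eq_mul, card_product]
    push_cast
    calc (J.card : ℝ) * J.card * ((∏ i, (P i : ℝ)) / q ^ (c + 10)) ≤
        (5 * q ^ 4) * (5 * q ^ 4) * ((∏ i, (P i : ℝ)) / q ^ (c + 10)) := by gcongr
      _ = 25 * (q ^ 8 * ((∏ i, (P i : ℝ)) / q ^ (c + 10))) := by ring
      _ ≤ q * (q ^ 8 * ((∏ i, (P i : ℝ)) / q ^ (c + 10))) := mul_le_mul_of_nonneg_right h25q (by positivity)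
      _ = (∏ i, (P i : ℝ)) / q ^ (c + 1) := by
        rw [show c + 10 = (c + 1) + 9 by ring, pow_add q (c + 1) 9]
        field_simp
  rw [← hq]
  refine ⟨E, ?_, ?_⟩
  · have h1 : (E.card : ℝ) ≤ Z.card + ((J ×ˢ J).biUnion Yk).card := by
      rw [hE]
      exact_mod_cast card_union_le _ _
    refine h1.trans ((add_le_add hZc hUc).trans ?_)
    calc (∏ i, (P i : ℝ)) / q ^ (c + 1) + (∏ i, (P i : ℝ)) / q ^ (c + 1) = 2 * ((∏ i, (P i : ℝ)) / q ^ (c + 1)) := by ring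
      _ ≤ q * ((∏ i, (P i : ℝ)) / q ^ (c + 1)) := mul_le_mul_of_nonneg_right (by linarith) (by positivity)
      _ = _ := by
        rw [pow_succ q c]
        field_simp
  · intro x hx hxE
    rw [← hX] at hx
    have hΔ : Del a (fun i => f i (x i)) ≠ 0 := by
      intro hc
      apply hxE
      rw [hE, mem_union]
      left
      rw [hZ, mem_filter]
      exact ⟨hx, hc⟩
    refine ⟨hΔ, fun k1 k2 hk1 hk2 => ?_⟩
    by_contra hc
    push Not at hc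
    apply hxE
    rw [hE, mem_union, mem_biUnion]
    right
    refine ⟨(k1, k2), ?_, ?_⟩
    · rw [mem_product, hJ, mem_Icc, mem_Icc, hk0]
      exact ⟨abs_le.1 hk1, abs_le.1 hk2⟩
    · rw [hYk, mem_filter]
      refine ⟨hx, ?_⟩
      rw [hq, hG]
      exact hc

/-- the exceptional points for all shifts near the values of the polynomials -/
theorem exPP (s : ℕ) (hs : 1 ≤ s) (K : ℕ) (L1 L2 E' : ℕ) (hL1 : lE s ≤ L1)
    (hL2 : 1 ≤ L2) (hE' : 1 + 2 * 2 ^ K * (s + ((2 * s + 1) + 10) + 6) ≤ E') (hE32 : 32 ≤ E') :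
    ∃ Q0 : ℕ, ∀ Q : ℕ, Q0 ≤ Q → ∀ A : ℕ, 1 ≤ A → 4 * A + 1 ≤ Q → ((A : ℝ) + 1) ^ (2 * (2 ^ K + 2)) ≤ qk (2 * E') Q →
    ∀ N : ℕ, Q ^ L1 ≤ N → N ≤ Q ^ L2 → ∀ B : PC → ℝ, HW Q ((4 * A + 1) * N) B → ∑ j ∈ fam Q, B j ≤ 3 →
    ∀ a : Fin s → ℤ, (∀ i, a i ≠ 0) → ∀ (P : Fin s → ℕ) (F : Fin s → ℤ[X]),
    (∀ i, 1 ≤ (F i).natDegree ∧ (F i).natDegree ≤ K) →
    (∀ i, (N : ℝ) ^ (1 - 1 / (((2 * E' : ℕ) : ℝ) * L2)) ≤ (P i : ℝ) ^ (F i).natDegree) →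
    (∀ i, ∀ x : ℤ, 0 ≤ x → x < P i → |(F i).eval x| ≤ A * N) →
    ∃ E : Finset (Fin s → ℤ), (E.card : ℝ) ≤ (N : ℝ) ^ (-(1 / (((2 * E' : ℕ) : ℝ) * L2))) * ∏ i, (P i : ℝ) ∧
      ∀ x : Fin s → ℤ, (∀ i, 0 ≤ x i ∧ x i < P i) → x ∉ E →
        ∀ h : Fin s → ℤ, (∀ i, ((|h i - (F i).eval (x i)| : ℤ) : ℝ) ≤ (N : ℝ) ^ (1 / (((2 * E' : ℕ) : ℝ) * L2))) →
        (∀ i, |h i| ≤ 2 * A * N) ∧ Gd (2 * E') Q A N a h := by
  classical
  obtain ⟨Q1, hQ1⟩ := exP s hs K (2 * s + 1) L1 L2 E' hL1 hE' hE32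
  have hE0 : (0 : ℝ) < ((2 * E' : ℕ) : ℝ) := by exact_mod_cast (by omega : 0 < 2 * E')
  obtain ⟨Q3, hQ3⟩ := ev_log 3 0 (a := 1 / ((2 * E' : ℕ) : ℝ)) (by positivity)
  refine ⟨Q1 + Q3 + 3, fun Q hQ A hA hA4 hAq N hN1 hN2 B hw hBs a ha P F hF hPN hFB => ?_⟩
  have hQ1' : 1 ≤ Q := by omega
  have hQr : (1 : ℝ) ≤ Q := by exact_mod_cast hQ1'
  have hQ0 : (0 : ℝ) < Q := by linarith
  obtain ⟨q, hq⟩ : ∃ q : ℝ, q = qk (2 * E') Q := ⟨_, rfl⟩
  have hq1 : 1 ≤ q := by rw [hq]; exact qk_ge hQ1'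
  have hq0 : 0 < q := by linarith
  have hqd : (Q : ℝ) ^ (1 / ((2 * E' : ℕ) : ℝ)) = q := by rw [hq]; rfl
  have h3q : 3 ≤ q := by
    have := hQ3 Q (by omega)
    rwa [pow_zero, mul_one, hqd] at this
  have hNpos : 0 < N := lt_of_lt_of_le (by positivity) hN1
  have hN0 : (0 : ℝ) < N := by exact_mod_cast hNpos
  have hN1r : (1 : ℝ) ≤ N := by exact_mod_cast hNpos
  obtain ⟨δ, hδ⟩ : ∃ δ : ℝ, δ = 1 / (((2 * E' : ℕ) : ℝ) * L2) := ⟨_, rfl⟩
  rw [← hδ]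
  rw [← hδ] at hPN
  have hL2r : (0 : ℝ) < L2 := by exact_mod_cast hL2
  have hδ0 : 0 < δ := by rw [hδ]; positivity
  have hNδ : (N : ℝ) ^ δ ≤ q := by
    have h1 : (N : ℝ) ^ δ ≤ ((Q : ℝ) ^ L2) ^ δ := by
      apply Real.rpow_le_rpow hN0.le _ hδ0.le
      exact_mod_cast hN2
    refine h1.trans (le_of_eq ?_)
    rw [← hqd, ← Real.rpow_natCast, ← Real.rpow_mul (by linarith)]
    congr 1
    rw [hδ]
    field_simp
  have hNδ0 : 0 < (N : ℝ) ^ δ := Real.rpow_pos_of_pos hN0 _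
  have hsplit : (N : ℝ) = (N : ℝ) ^ δ * (N : ℝ) ^ (1 - δ) := by
    rw [← Real.rpow_add hN0]
    have : δ + (1 - δ) = 1 := by ring
    rw [this, Real.rpow_one]
  have hQN : Q ≤ N := by
    have h40 : 40 ≤ lE s := by unfold lE; omega
    have h1 : Q ≤ Q ^ L1 := Nat.le_self_pow (by omega) Q
    omega
  obtain ⟨T, hT⟩ : ∃ T : ℕ, T = ⌊(N : ℝ) ^ δ⌋₊ := ⟨_, rfl⟩
  have hTq : (T : ℝ) ≤ q := by rw [hT]; exact (Nat.floor_le hNδ0.le).trans hNδ
  have hTN : T ≤ N := by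
    have h1 : (T : ℝ) ≤ Q := hTq.trans (by
      have := qk_le (E := 2 * E') (Q := Q) (by omega) hQ1' (n := 1) (by omega)
      rwa [pow_one, ← hq] at this)
    have h2 : T ≤ Q := by exact_mod_cast h1
    omega
  obtain ⟨Ts, hTs⟩ : ∃ Ts : Finset (Fin s → ℤ), Ts = Fintype.piFinset (fun _ : Fin s => Icc (-(T : ℤ)) T) := ⟨_, rfl⟩
  have hP1 : ∀ i, 1 ≤ P i := by
    intro i
    by_contra hc
    have h0 : P i = 0 := by omega
    have h1 := hPN i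
    rw [h0, Nat.cast_zero, zero_pow (by have := (hF i).1; omega)] at h1
    have := Real.rpow_pos_of_pos hN0 (1 - δ)
    linarith
  have hPi0 : 0 ≤ ∏ i, (P i : ℝ) := prod_nonneg fun _ _ => Nat.cast_nonneg _
  have hex := hQ1 Q (by omega) A hA hA4 hAq N hN1 hN2 B hw hBs a ha (fun i => (F i).natDegree) P
  rw [← hq] at hex
  have hPN' : ∀ i, (N : ℝ) ≤ q * (P i : ℝ) ^ (F i).natDegree := by
    intro i
    calc (N : ℝ) = (N : ℝ) ^ δ * (N : ℝ) ^ (1 - δ) := hsplit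
      _ ≤ q * (P i : ℝ) ^ (F i).natDegree := mul_le_mul hNδ (hPN i) (Real.rpow_nonneg hN0.le _) hq0.le
  have ht : ∀ t ∈ Ts, ∃ E : Finset (Fin s → ℤ), (E.card : ℝ) ≤ (∏ i, (P i : ℝ)) / q ^ (2 * s + 1) ∧
      ∀ x ∈ Fintype.piFinset (fun i => Ico (0 : ℤ) (P i)), x ∉ E →
        Gd (2 * E') Q A N a (fun i => (F i).eval (x i) + t i) := by
    intro t ht
    rw [hTs, Fintype.mem_piFinset] at ht
    exact hex (fun i y => (F i).eval y + t i) hF (fun i => ⟨F i + C (t i), natDegree_add_C, fun y => by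
      rw [eval_add, eval_C]⟩) hP1 hPN' (by
        intro i y hy
        rw [mem_Ico] at hy
        have h1 := hFB i y hy.1 hy.2
        have h2 := ht i
        rw [mem_Icc] at h2
        have h3 : |t i| ≤ T := abs_le.2 h2
        have h4 := abs_add_le ((F i).eval y) (t i)
        have h5 : (T : ℤ) ≤ N := by exact_mod_cast hTN
        have h6 : (1 : ℤ) ≤ A := by exact_mod_cast hA
        have h7 : (N : ℤ) ≤ A * N := le_mul_of_one_le_left (Int.natCast_nonneg _) h6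
        linarith)
  choose! Et hEt1 hEt2 using ht
  refine ⟨Ts.biUnion Et, ?_, ?_⟩
  · have hTsc : (Ts.card : ℝ) ≤ q ^ (2 * s) := by
      have h1 : Ts.card = (2 * T + 1) ^ s := by
        rw [hTs, Fintype.card_piFinset, prod_const, card_univ, Fintype.card_fin, Int.card_Icc]
        congr 1
        omega
      rw [h1]
      push_cast
      calc (2 * (T : ℝ) + 1) ^ s ≤ (q ^ 2) ^ s := by
            apply pow_le_pow_left₀ (by positivity)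
            nlinarith
        _ = q ^ (2 * s) := by rw [pow_mul]
    have h1 : ((Ts.biUnion Et).card : ℝ) ≤ ∑ t ∈ Ts, ((Et t).card : ℝ) := by
      exact_mod_cast card_biUnion_le
    refine (h1.trans (sum_le_sum hEt1)).trans ?_
    rw [sum_const, nsmul_eq_mul]
    calc (Ts.card : ℝ) * ((∏ i, (P i : ℝ)) / q ^ (2 * s + 1)) ≤ q ^ (2 * s) * ((∏ i, (P i : ℝ)) / q ^ (2 * s + 1)) :=
          mul_le_mul_of_nonneg_right hTsc (by positivity)
      _ = q⁻¹ * ∏ i, (P i : ℝ) := by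
        rw [pow_succ]
        field_simp
      _ ≤ (N : ℝ) ^ (-δ) * ∏ i, (P i : ℝ) := by
        apply mul_le_mul_of_nonneg_right _ hPi0
        rw [Real.rpow_neg hN0.le]
        exact inv_anti₀ hNδ0 hNδ
  · intro x hx hxE h hh
    obtain ⟨t, htd⟩ : ∃ t : Fin s → ℤ, t = fun i => h i - (F i).eval (x i) := ⟨_, rfl⟩
    have htT : t ∈ Ts := by
      rw [hTs, Fintype.mem_piFinset]
      intro i
      rw [mem_Icc, ← abs_le]
      have h1 := hh i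
      have h2 : |t i| = ((t i).natAbs : ℤ) := Int.abs_eq_natAbs _
      rw [h2]
      have h3 : ((t i).natAbs : ℝ) ≤ (N : ℝ) ^ δ := by
        have h4 : ((t i).natAbs : ℝ) = ((|t i| : ℤ) : ℝ) := by rw [h2]; simp
        rw [h4, htd]
        exact h1
      have h5 := Nat.le_floor h3
      rw [← hT] at h5
      exact_mod_cast h5
    have hxE' : x ∉ Et t := fun hc => hxE (mem_biUnion.2 ⟨t, htT, hc⟩)
    have hht : (fun i => (F i).eval (x i) + t i) = h := by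
      funext i
      rw [htd]
      ring
    have h1 := hEt2 t htT x (by
      rw [Fintype.mem_piFinset]
      intro i
      exact mem_Ico.2 (hx i)) hxE'
    rw [hht] at h1
    refine ⟨fun i => ?_, h1⟩
    have g1 := hFB i (x i) (hx i).1 (hx i).2
    have g2 : |t i| ≤ T := by
      rw [hTs, Fintype.mem_piFinset] at htT
      have := htT i
      rw [mem_Icc] at this
      exact abs_le.2 this
    have g3 := abs_add_le ((F i).eval (x i)) (t i)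
    have g4 : (F i).eval (x i) + t i = h i := congrFun hht i
    rw [g4] at g3
    have g5 : (T : ℤ) ≤ N := by exact_mod_cast hTN
    have g6 : (1 : ℤ) ≤ A := by exact_mod_cast hA
    have g7 : (N : ℤ) ≤ A * N := le_mul_of_one_le_left (Int.natCast_nonneg _) g6
    linarith

end Pool.Agent.Helper86.PE
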